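import Mathlib
import Pool.Agent.K4H59.LinfNoLUR

/-!
# MP_ea77cd_an: a Banach space with an extended M-basis and without equivalent LUR norm

The space is `ℓ^∞ ⊕ ℓ^1(D; ℓ^2)`, where `D` is the closed unit ball of `ℓ^∞`. An extended M-basis
consists of the vectors `(e_n, 0)` and `(d 1_{[i, ∞)}, e_{d, i})`, `d ∈ D`, `i ∈ ℕ`.
-/

set_option autoImplicit false

open Filter Topology Set
open scoped ENNReal

namespace Pool.Agent.Results.MP_ea77cd_an.MBasisWithoutLUR

/-- `(x i, f i)`, `i ∈ I`, is an extended M-basis (Markushevich basis) of `E`: the family is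
biorthogonal, the closed linear span of the `x i` is `E`, and the `f i` are total. -/
structure IsExtendedMBasis (𝕜 : Type) [RCLike 𝕜] {E : Type} [NormedAddCommGroup E]
    [NormedSpace 𝕜 E] {I : Type} (x : I → E) (f : I → StrongDual 𝕜 E) : Prop where
  apply_self : ∀ i, f i (x i) = 1
  apply_ne : ∀ i j, i ≠ j → f i (x j) = 0
  dense : Dense (Submodule.span 𝕜 (Set.range x) : Set E)
  total : ∀ z : E, (∀ i, f i z = 0) → z = 0

/-- `N` is an equivalent norm on `E`: a seminorm with `a ‖x‖ ≤ N x ≤ b ‖x‖` for some `a, b > 0`. -/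
def IsEquivalentNorm {𝕜 : Type} [RCLike 𝕜] {E : Type} [NormedAddCommGroup E]
    [NormedSpace 𝕜 E] (N : Seminorm 𝕜 E) : Prop :=
  ∃ a b : ℝ, 0 < a ∧ 0 < b ∧ ∀ x, a * ‖x‖ ≤ N x ∧ N x ≤ b * ‖x‖

/-- `N` is locally uniformly convex (LUR): if `N x = N (x_n) = 1` and `N (x_n + x) → 2`, then
`N (x_n - x) → 0`. -/
def IsLUR {𝕜 : Type} [RCLike 𝕜] {E : Type} [NormedAddCommGroup E]
    [NormedSpace 𝕜 E] (N : Seminorm 𝕜 E) : Prop :=
  ∀ (x : E) (xs : ℕ → E), N x = 1 → (∀ n, N (xs n) = 1) →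
    Tendsto (fun n => N (xs n + x)) atTop (𝓝 2) → Tendsto (fun n => N (xs n - x)) atTop (𝓝 0)

open Pool.Agent.K4H59.LUR

section space

variable (𝕜 : Type) [RCLike 𝕜]

/-- The closed unit ball of `ℓ^∞`. -/
abbrev Ball : Type := {d : Linf 𝕜 // ‖d‖ ≤ 1}

/-- `ℓ^1(D; ℓ^2)`. -/
abbrev Y : Type := lp (fun _ : Ball 𝕜 => lp (fun _ : ℕ => 𝕜) 2) 1

/-- The Banach space `ℓ^∞ ⊕ ℓ^1(D; ℓ^2)`. -/
abbrev Z : Type := Linf 𝕜 × Y 𝕜

end space

section basis

variable {𝕜 : Type} [RCLike 𝕜]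

/-- `d 1_{[i, ∞)}`. -/
noncomputable def tail (d : Linf 𝕜) (i : ℕ) : Linf 𝕜 :=
  ⟨fun n => if n < i then 0 else d n, by
    apply memℓp_infty
    refine ⟨‖d‖, ?_⟩
    rintro _ ⟨n, rfl⟩
    dsimp only
    split_ifs
    · simp
    · exact apply_le d n⟩

lemma tail_apply (d : Linf 𝕜) (i n : ℕ) : tail d i n = if n < i then 0 else d n := rfl

lemma norm_tail_le (d : Linf 𝕜) (i : ℕ) : ‖tail d i‖ ≤ ‖d‖ := by
  apply bounded_of_apply (norm_nonneg _)
  intro n
  rw [tail_apply]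
  split_ifs
  · simp
  · exact apply_le d n

open scoped Classical in
/-- `e_{d, i}`. -/
noncomputable def ee (d : Ball 𝕜) (i : ℕ) : Y 𝕜 :=
  lp.single 1 d (lp.single 2 i (1 : 𝕜))

open scoped Classical in
lemma ee_apply (d d' : Ball 𝕜) (i i' : ℕ) :
    (ee d i) d' i' = if d' = d ∧ i' = i then (1 : 𝕜) else 0 := by
  classical
  unfold ee
  by_cases h : d' = d
  · subst h
    rw [lp.single_apply_self]
    by_cases h' : i' = i
    · subst h'
      rw [lp.single_apply_self]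
      simp
    · rw [lp.single_apply_ne _ _ _ h']
      simp [h']
  · rw [lp.single_apply_ne _ _ _ h]
    simp [h]

/-- The vectors of the M-basis. -/
noncomputable def bx : ℕ ⊕ (Ball 𝕜 × ℕ) → Z 𝕜
  | Sum.inl n => (lp.single ∞ n (1 : 𝕜), 0)
  | Sum.inr (d, i) => (tail d.1 i, ee d i)

/-- The summands of the correction functional. -/
noncomputable def cf (n : ℕ) (y : Y 𝕜) (d : Ball 𝕜) : 𝕜 :=
  d.1 n * ∑ i ∈ Finset.range (n + 1), y d i

lemma norm_cf_le (n : ℕ) (y : Y 𝕜) (d : Ball 𝕜) : ‖cf n y d‖ ≤ (n + 1) * ‖y d‖ := by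
  unfold cf
  rw [norm_mul]
  have h1 : ‖d.1 n‖ ≤ 1 := (apply_le _ _).trans d.2
  have h2 : ‖∑ i ∈ Finset.range (n + 1), y d i‖ ≤ (n + 1) * ‖y d‖ := by
    refine (norm_sum_le _ _).trans ?_
    calc ∑ i ∈ Finset.range (n + 1), ‖y d i‖ ≤ ∑ _i ∈ Finset.range (n + 1), ‖y d‖ :=
          Finset.sum_le_sum fun i _ => lp.norm_apply_le_norm (by simp) (y d) i
      _ = (n + 1) * ‖y d‖ := by
          rw [Finset.sum_const, Finset.card_range, nsmul_eq_mul]
          push_cast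
          ring
  calc ‖d.1 n‖ * ‖∑ i ∈ Finset.range (n + 1), y d i‖ ≤ 1 * ((n + 1) * ‖y d‖) :=
        mul_le_mul h1 h2 (norm_nonneg _) zero_le_one
    _ = _ := one_mul _

lemma hasSum_norm_Y (y : Y 𝕜) : HasSum (fun d => ‖y d‖) ‖y‖ := by
  have h := lp.hasSum_norm (p := 1) (by simp) y
  simpa using h

lemma summable_cf (n : ℕ) (y : Y 𝕜) : Summable (cf n y) := by
  apply Summable.of_norm_bounded (g := fun d => (n + 1 : ℝ) * ‖y d‖)
  · exact (hasSum_norm_Y y).summable.mul_left _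
  · exact norm_cf_le n y

/-- The correction functional. -/
noncomputable def corr (n : ℕ) : StrongDual 𝕜 (Y 𝕜) :=
  LinearMap.mkContinuous
    { toFun := fun y => ∑' d, cf n y d
      map_add' := by
        intro y z
        rw [← (summable_cf n y).tsum_add (summable_cf n z)]
        congr 1
        ext d
        simp only [cf, lp.coeFn_add, Pi.add_apply, Finset.sum_add_distrib, mul_add]
      map_smul' := by
        intro c y
        rw [RingHom.id_apply, smul_eq_mul, ← tsum_mul_left]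
        congr 1
        ext d
        simp only [cf, lp.coeFn_smul, Pi.smul_apply, smul_eq_mul, ← Finset.mul_sum]
        ring }
    (n + 1) (by
      intro y
      show ‖∑' d, cf n y d‖ ≤ _
      refine tsum_of_norm_bounded ((hasSum_norm_Y y).mul_left (n + 1 : ℝ)) (norm_cf_le n y))

lemma corr_apply (n : ℕ) (y : Y 𝕜) : corr n y = ∑' d, cf n y d := rfl

lemma corr_ee (n : ℕ) (d : Ball 𝕜) (i : ℕ) :
    corr n (ee d i) = if n < i then 0 else d.1 n := by
  classical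
  rw [corr_apply, tsum_eq_single d]
  · unfold cf
    by_cases h : n < i
    · rw [if_pos h, Finset.sum_eq_zero, mul_zero]
      intro j hj
      rw [ee_apply, if_neg]
      rintro ⟨-, h2⟩
      have := Finset.mem_range.1 hj
      omega
    · rw [if_neg h, Finset.sum_eq_single_of_mem i (Finset.mem_range.2 (by omega))]
      · rw [ee_apply, if_pos ⟨rfl, rfl⟩, mul_one]
      · intro j _ hj
        rw [ee_apply, if_neg]
        rintro ⟨-, h2⟩
        exact hj h2
  · intro d' hd'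
    unfold cf
    rw [Finset.sum_eq_zero, mul_zero]
    intro j _
    rw [ee_apply, if_neg]
    rintro ⟨h1, -⟩
    exact hd' h1

/-- The functionals of the M-basis. -/
noncomputable def bf : ℕ ⊕ (Ball 𝕜 × ℕ) → StrongDual 𝕜 (Z 𝕜)
  | Sum.inl n => (lp.evalCLM 𝕜 (fun _ : ℕ => 𝕜) ∞ n).comp (ContinuousLinearMap.fst 𝕜 (Linf 𝕜) (Y 𝕜))
      - (corr n).comp (ContinuousLinearMap.snd 𝕜 (Linf 𝕜) (Y 𝕜))
  | Sum.inr (d, i) => ((lp.evalCLM 𝕜 (fun _ : ℕ => 𝕜) 2 i).comp
      (lp.evalCLM 𝕜 (fun _ : Ball 𝕜 => lp (fun _ : ℕ => 𝕜) 2) 1 d)).comp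
      (ContinuousLinearMap.snd 𝕜 (Linf 𝕜) (Y 𝕜))

lemma bf_inl (n : ℕ) (z : Z 𝕜) : bf (Sum.inl n) z = z.1 n - corr n z.2 := rfl

lemma bf_inr (d : Ball 𝕜) (i : ℕ) (z : Z 𝕜) : bf (Sum.inr (d, i)) z = z.2 d i := rfl

lemma total (z : Z 𝕜) (h : ∀ i, bf i z = 0) : z = 0 := by
  have h1 : z.2 = 0 := by
    apply lp.ext
    funext d
    apply lp.ext
    funext i
    have := h (Sum.inr (d, i))
    rw [bf_inr] at this
    rw [this]
    rfl
  have h2 : z.1 = 0 := by
    apply lp.ext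
    funext n
    have := h (Sum.inl n)
    rw [bf_inl, h1, map_zero, sub_zero] at this
    rw [this]
    rfl
  exact Prod.ext h2 h1

lemma apply_self (i : ℕ ⊕ (Ball 𝕜 × ℕ)) : bf i (bx i) = (1 : 𝕜) := by
  rcases i with n | ⟨d, i⟩
  · rw [bf_inl]
    simp only [bx, map_zero, sub_zero]
    rw [lp.single_apply_self]
  · rw [bf_inr]
    simp only [bx]
    rw [ee_apply, if_pos ⟨rfl, rfl⟩]

lemma apply_ne (i j : ℕ ⊕ (Ball 𝕜 × ℕ)) (hij : i ≠ j) : bf i (bx j) = (0 : 𝕜) := by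
  rcases i with n | ⟨d, i⟩
  · rcases j with m | ⟨d', j⟩
    · rw [bf_inl]
      simp only [bx, map_zero, sub_zero]
      have h : n ≠ m := fun h => hij (by rw [h])
      rw [lp.single_apply_ne _ _ _ h]
    · rw [bf_inl]
      simp only [bx]
      rw [tail_apply, corr_ee, sub_self]
  · rcases j with m | ⟨d', j⟩
    · rw [bf_inr]
      rfl
    · rw [bf_inr]
      simp only [bx]
      rw [ee_apply, if_neg]
      rintro ⟨h1, h2⟩
      exact hij (by rw [h1, h2])

/-- The closed linear span of the vectors. -/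
noncomputable def W : Submodule 𝕜 (Z 𝕜) := (Submodule.span 𝕜 (Set.range (bx (𝕜 := 𝕜)))).topologicalClosure

lemma W_closed : IsClosed ((W : Submodule 𝕜 (Z 𝕜)) : Set (Z 𝕜)) :=
  Submodule.isClosed_topologicalClosure _

lemma bx_mem_span (i : ℕ ⊕ (Ball 𝕜 × ℕ)) : bx i ∈ Submodule.span 𝕜 (Set.range (bx (𝕜 := 𝕜))) :=
  Submodule.subset_span ⟨i, rfl⟩

lemma bx_mem (i : ℕ ⊕ (Ball 𝕜 × ℕ)) : bx i ∈ (W : Submodule 𝕜 (Z 𝕜)) :=
  Submodule.le_topologicalClosure _ (bx_mem_span i)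

lemma head_mem (d : Ball 𝕜) (i : ℕ) : ((d.1, ee d i) : Z 𝕜) ∈ (W : Submodule 𝕜 (Z 𝕜)) := by
  have h : ((d.1, ee d i) : Z 𝕜) = bx (Sum.inr (d, i)) +
      ∑ n ∈ Finset.range i, d.1 n • bx (Sum.inl n) := by
    have h1 : ∑ n ∈ Finset.range i, d.1 n • (bx (Sum.inl n) : Z 𝕜) =
        (∑ n ∈ Finset.range i, d.1 n • lp.single ∞ n (1 : 𝕜), 0) := by
      rw [Prod.ext_iff]
      refine ⟨?_, ?_⟩
      · rw [Prod.fst_sum]
        rfl
      · rw [Prod.snd_sum]
        simp only [bx, Prod.smul_mk, smul_zero, Finset.sum_const_zero]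
    rw [h1]
    refine Prod.ext ?_ ?_
    · show d.1 = tail d.1 i + ∑ n ∈ Finset.range i, d.1 n • lp.single ∞ n (1 : 𝕜)
      apply lp.ext
      funext m
      rw [lp.coeFn_add, Pi.add_apply, tail_apply, lp.coeFn_sum, Finset.sum_apply]
      by_cases hm : m < i
      · rw [if_pos hm, Finset.sum_eq_single_of_mem m (Finset.mem_range.2 hm)]
        · rw [lp.coeFn_smul, Pi.smul_apply, lp.single_apply_self]
          simp
        · intro n _ hn
          rw [lp.coeFn_smul, Pi.smul_apply, lp.single_apply_ne _ _ _ hn.symm, smul_zero]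
      · rw [if_neg hm, Finset.sum_eq_zero, add_zero]
        intro n hn
        have hn' := Finset.mem_range.1 hn
        have : m ≠ n := by omega
        rw [lp.coeFn_smul, Pi.smul_apply, lp.single_apply_ne _ _ _ this, smul_zero]
    · show ee d i = ee d i + 0
      rw [add_zero]
  rw [h]
  exact add_mem (bx_mem _) (sum_mem fun n _ => Submodule.smul_mem _ _ (bx_mem _))

lemma norm_sum_ee (d : Ball 𝕜) (M : ℕ) : ‖∑ i ∈ Finset.range M, ee d i‖ = Real.sqrt M := by
  classical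
  have h1 : ∑ i ∈ Finset.range M, ee d i =
      lp.single 1 d (∑ i ∈ Finset.range M, lp.single 2 i (1 : 𝕜)) := by
    apply lp.ext
    funext d'
    apply lp.ext
    funext i'
    rw [lp.coeFn_sum, Finset.sum_apply, lp.coeFn_sum, Finset.sum_apply]
    by_cases h : d' = d
    · subst h
      rw [lp.single_apply_self, lp.coeFn_sum, Finset.sum_apply]
      apply Finset.sum_congr rfl
      intro i _
      rw [ee_apply]
      by_cases h' : i' = i
      · subst h'
        rw [lp.single_apply_self]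
        simp
      · rw [lp.single_apply_ne _ _ _ h']
        simp [h']
    · rw [lp.single_apply_ne _ _ _ h]
      rw [Finset.sum_eq_zero]
      · rfl
      · intro i _
        rw [ee_apply, if_neg]
        rintro ⟨h1, -⟩
        exact h h1
  rw [h1, lp.norm_single (by simp)]
  have h2 := lp.norm_sum_single (p := 2) (E := fun _ : ℕ => 𝕜) (by simp) (fun _ => (1 : 𝕜))
    (Finset.range M)
  simp only [norm_one, Real.one_rpow, Finset.sum_const, Finset.card_range, nsmul_eq_mul, mul_one,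
    ENNReal.toReal_ofNat] at h2
  rw [← h2]
  rw [show (2 : ℝ) = ((2 : ℕ) : ℝ) by norm_num, Real.rpow_natCast, Real.sqrt_sq (norm_nonneg _)]

lemma ball_mem (d : Ball 𝕜) : ((d.1, 0) : Z 𝕜) ∈ (W : Submodule 𝕜 (Z 𝕜)) := by
  have hmem : ∀ M : ℕ, ((d.1, ((M + 1 : ℕ) : 𝕜)⁻¹ • ∑ i ∈ Finset.range (M + 1), ee d i) : Z 𝕜) ∈
      (W : Submodule 𝕜 (Z 𝕜)) := by
    intro M
    have h1 : ((d.1, ((M + 1 : ℕ) : 𝕜)⁻¹ • ∑ i ∈ Finset.range (M + 1), ee d i) : Z 𝕜) =
        ((M + 1 : ℕ) : 𝕜)⁻¹ • ∑ i ∈ Finset.range (M + 1), ((d.1, ee d i) : Z 𝕜) := by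
      refine Prod.ext ?_ ?_
      · rw [Prod.smul_fst, Prod.fst_sum]
        simp only [Finset.sum_const, Finset.card_range]
        rw [← Nat.cast_smul_eq_nsmul 𝕜, smul_smul, inv_mul_cancel₀, one_smul]
        exact_mod_cast Nat.succ_ne_zero M
      · rw [Prod.smul_snd, Prod.snd_sum]
    rw [h1]
    exact Submodule.smul_mem _ _ (sum_mem fun i _ => head_mem d i)
  refine W_closed.mem_of_tendsto (b := atTop) (f := fun M : ℕ =>
    ((d.1, ((M + 1 : ℕ) : 𝕜)⁻¹ • ∑ i ∈ Finset.range (M + 1), ee d i) : Z 𝕜)) ?_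
    (Eventually.of_forall hmem)
  rw [nhds_prod_eq]
  refine tendsto_const_nhds.prodMk ?_
  rw [tendsto_zero_iff_norm_tendsto_zero]
  have h2 : ∀ M : ℕ, ‖((M + 1 : ℕ) : 𝕜)⁻¹ • ∑ i ∈ Finset.range (M + 1), ee d i‖ =
      (Real.sqrt ((M : ℝ) + 1))⁻¹ := by
    intro M
    rw [norm_smul, norm_sum_ee, norm_inv, RCLike.norm_natCast]
    push_cast
    have h3 : 0 < Real.sqrt ((M : ℝ) + 1) := Real.sqrt_pos.2 (by positivity)
    have h4 : Real.sqrt ((M : ℝ) + 1) * Real.sqrt ((M : ℝ) + 1) = (M : ℝ) + 1 :=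
      Real.mul_self_sqrt (by positivity)
    field_simp
    nlinarith
  simp_rw [h2]
  apply Tendsto.inv_tendsto_atTop
  exact Real.tendsto_sqrt_atTop.comp (tendsto_atTop_add_const_right _ _ tendsto_natCast_atTop_atTop)

lemma fst_mem (u : Linf 𝕜) : ((u, 0) : Z 𝕜) ∈ (W : Submodule 𝕜 (Z 𝕜)) := by
  by_cases hu : ‖u‖ = 0
  · have : u = 0 := norm_eq_zero.1 hu
    rw [this]
    exact zero_mem _
  · let d : Ball 𝕜 := ⟨((‖u‖ : ℝ) : 𝕜)⁻¹ • u, by
      rw [norm_smul, norm_inv, RCLike.norm_ofReal, abs_norm, inv_mul_cancel₀ hu]⟩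
    have h1 : ((u, 0) : Z 𝕜) = ((‖u‖ : ℝ) : 𝕜) • ((d.1, 0) : Z 𝕜) := by
      refine Prod.ext ?_ ?_
      · show u = ((‖u‖ : ℝ) : 𝕜) • (((‖u‖ : ℝ) : 𝕜)⁻¹ • u)
        rw [smul_smul, mul_inv_cancel₀, one_smul]
        exact_mod_cast hu
      · simp
    rw [h1]
    exact Submodule.smul_mem _ _ (ball_mem d)

lemma ee_mem (d : Ball 𝕜) (i : ℕ) : ((0, ee d i) : Z 𝕜) ∈ (W : Submodule 𝕜 (Z 𝕜)) := by
  have h : ((0, ee d i) : Z 𝕜) = bx (Sum.inr (d, i)) - (tail d.1 i, 0) := by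
    refine Prod.ext ?_ ?_
    · show (0 : Linf 𝕜) = tail d.1 i - tail d.1 i
      rw [sub_self]
    · show ee d i = ee d i - 0
      rw [sub_zero]
  rw [h]
  exact sub_mem (bx_mem _) (fst_mem _)

open scoped Classical in
lemma single_mem (d : Ball 𝕜) (v : lp (fun _ : ℕ => 𝕜) 2) :
    ((0, lp.single 1 d v) : Z 𝕜) ∈ (W : Submodule 𝕜 (Z 𝕜)) := by
  let T : lp (fun _ : ℕ => 𝕜) 2 →L[𝕜] Z 𝕜 :=
    (ContinuousLinearMap.inr 𝕜 (Linf 𝕜) (Y 𝕜)).comp
      (lp.singleContinuousLinearMap 𝕜 (fun _ : Ball 𝕜 => lp (fun _ : ℕ => 𝕜) 2) 1 d)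
  have hT : ∀ v, T v = ((0, lp.single 1 d v) : Z 𝕜) := fun v => rfl
  have hs := (lp.hasSum_single (p := 2) (E := fun _ : ℕ => 𝕜) (by simp) v).mapL T
  rw [← hT]
  refine W_closed.mem_of_tendsto hs (Eventually.of_forall fun s => ?_)
  refine sum_mem fun i _ => ?_
  have h1 : (lp.single 2 i (v i) : lp (fun _ : ℕ => 𝕜) 2) = v i • lp.single 2 i (1 : 𝕜) := by
    rw [← lp.single_smul, smul_eq_mul, mul_one]
  rw [h1, map_smul, hT]
  apply Submodule.smul_mem
  have := ee_mem d i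
  unfold ee at this
  convert this

lemma snd_mem (y : Y 𝕜) : ((0, y) : Z 𝕜) ∈ (W : Submodule 𝕜 (Z 𝕜)) := by
  classical
  have hs := (lp.hasSum_single (p := 1) (E := fun _ : Ball 𝕜 => lp (fun _ : ℕ => 𝕜) 2)
    (by simp) y).mapL (ContinuousLinearMap.inr 𝕜 (Linf 𝕜) (Y 𝕜))
  have h0 : ((0, y) : Z 𝕜) = ContinuousLinearMap.inr 𝕜 (Linf 𝕜) (Y 𝕜) y := rfl
  rw [h0]
  refine W_closed.mem_of_tendsto hs (Eventually.of_forall fun s => ?_)
  refine sum_mem fun d _ => ?_
  have := single_mem d (y d)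
  rw [ContinuousLinearMap.inr_apply]
  convert this

lemma W_top : (W : Submodule 𝕜 (Z 𝕜)) = ⊤ := by
  rw [eq_top_iff]
  rintro ⟨u, y⟩ -
  have h : ((u, y) : Z 𝕜) = (u, 0) + (0, y) := by
    refine Prod.ext ?_ ?_ <;> simp
  rw [h]
  exact add_mem (fst_mem u) (snd_mem y)

lemma isExtendedMBasis : IsExtendedMBasis 𝕜 (bx (𝕜 := 𝕜)) bf where
  apply_self := apply_self
  apply_ne := apply_ne
  dense := by
    rw [dense_iff_closure_eq]
    have h := congrArg (fun U : Submodule 𝕜 (Z 𝕜) => (U : Set (Z 𝕜))) (W_top (𝕜 := 𝕜))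
    simpa [W, Submodule.topologicalClosure_coe] using h
  total := total

end basis

section LUR

variable {𝕜 : Type} [RCLike 𝕜]

lemma not_LUR_of_flat {E : Type} [NormedAddCommGroup E] [NormedSpace 𝕜 E] (N : Seminorm 𝕜 E)
    {a t : ℝ} (ha : 0 < a) (ht : 0 < t) (v : E) (u : ℕ → E) (δ : ℕ → ℝ) (hδ : Tendsto δ atTop (𝓝 0))
    (hδt : ∀ k, δ k < t) (hv : N v = t) (hu : ∀ k, a ≤ N (u k))
    (h1 : ∀ k, N (v + u k) ≤ t + δ k) (h2 : ∀ k, N (v - u k) ≤ t + δ k) : ¬ IsLUR N := by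
  intro hL
  -- `s k = N (v + u k)` lies between `t - δ k` and `t + δ k`
  have hlow : ∀ k, t - δ k ≤ N (v + u k) := by
    intro k
    have h3 : (2 : 𝕜) • v = (v + u k) + (v - u k) := by rw [two_smul]; abel
    have h4 : N ((2 : 𝕜) • v) = 2 * t := by
      rw [map_smul_eq_mul, hv]
      congr 1
      exact RCLike.norm_ofNat 2
    have h5 := map_add_le_add N (v + u k) (v - u k)
    rw [← h3, h4] at h5
    have := h2 k
    linarith
  have hspos : ∀ k, 0 < N (v + u k) := fun k => by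
    have := hlow k
    have := hδt k
    linarith
  set r : ℕ → ℝ := fun k => N (v + u k) with hr
  have hsc : ∀ (c : ℝ) (w : E), 0 ≤ c → N (((c : ℝ) : 𝕜) • w) = c * N w := by
    intro c w hc
    rw [map_smul_eq_mul]
    congr 1
    rw [RCLike.norm_ofReal, abs_of_nonneg hc]
  let X : E := ((t⁻¹ : ℝ) : 𝕜) • v
  let Xs : ℕ → E := fun k => (((r k)⁻¹ : ℝ) : 𝕜) • (v + u k)
  have hX : N X = 1 := by
    rw [hsc _ _ (inv_nonneg.2 ht.le), hv, inv_mul_cancel₀ ht.ne']
  have hXs : ∀ k, N (Xs k) = 1 := by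
    intro k
    rw [hsc _ _ (inv_nonneg.2 (hspos k).le)]
    exact inv_mul_cancel₀ (hspos k).ne'
  -- the error made by replacing `r k` by `t`
  let er : ℕ → E := fun k => (((r k)⁻¹ - t⁻¹ : ℝ) : 𝕜) • (v + u k)
  have her : ∀ k, N (er k) ≤ δ k / t := by
    intro k
    have h3 : N (er k) = |(r k)⁻¹ - t⁻¹| * r k := by
      show N ((((r k)⁻¹ - t⁻¹ : ℝ) : 𝕜) • (v + u k)) = _
      rw [map_smul_eq_mul]
      congr 1
      exact RCLike.norm_ofReal _
    have h3' : r k = |r k| := (abs_of_pos (hspos k)).symm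
    have h3'' : N (er k) = |((r k)⁻¹ - t⁻¹) * r k| := by
      rw [h3, abs_mul, ← h3']
    rw [h3'', sub_mul, inv_mul_cancel₀ (hspos k).ne']
    have h4 := hlow k
    have h5 := h1 k
    have h6 : 1 - t⁻¹ * r k = (t - r k) / t := by field_simp
    rw [h6, abs_div, abs_of_pos ht]
    apply div_le_div_of_nonneg_right _ ht.le
    rw [abs_le]
    constructor
    · change -δ k ≤ t - N (v + u k)
      linarith
    · change t - N (v + u k) ≤ δ k
      linarith
  have hdec : ∀ k, Xs k = ((t⁻¹ : ℝ) : 𝕜) • (v + u k) + er k := by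
    intro k
    show (((r k)⁻¹ : ℝ) : 𝕜) • (v + u k) = _ + (((r k)⁻¹ - t⁻¹ : ℝ) : 𝕜) • (v + u k)
    rw [← add_smul]
    congr 1
    push_cast
    ring
  have hsum : Tendsto (fun k => N (Xs k + X)) atTop (𝓝 2) := by
    have hup : ∀ k, N (Xs k + X) ≤ 2 := by
      intro k
      have := map_add_le_add N (Xs k) X
      rw [hXs, hX] at this
      linarith
    have hlo : ∀ k, 2 - 2 * (δ k / t) ≤ N (Xs k + X) := by
      intro k
      have h3 : Xs k + X = ((t⁻¹ : ℝ) : 𝕜) • ((2 : 𝕜) • v + u k) + er k := by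
        rw [hdec]
        show _ + _ + ((t⁻¹ : ℝ) : 𝕜) • v = _
        rw [two_smul]
        simp only [smul_add]
        abel
      have h4 : ((t⁻¹ : ℝ) : 𝕜) • ((2 : 𝕜) • v + u k) = (Xs k + X) - er k := by
        rw [h3]; abel
      have h5 := map_sub_le_add N (Xs k + X) (er k)
      rw [← h4, hsc _ _ (inv_nonneg.2 ht.le)] at h5
      have h6 : (4 : 𝕜) • v = ((2 : 𝕜) • v + u k) + (v + (v - u k)) := by
        rw [show (4 : 𝕜) = 2 + 1 + 1 by norm_num, add_smul, add_smul, one_smul]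
        abel
      have h7 := map_add_le_add N ((2 : 𝕜) • v + u k) (v + (v - u k))
      rw [← h6] at h7
      have h8 : N ((4 : 𝕜) • v) = 4 * t := by
        rw [map_smul_eq_mul, hv]
        congr 1
        exact RCLike.norm_ofNat 4
      rw [h8] at h7
      have h9 := map_add_le_add N v (v - u k)
      rw [hv] at h9
      have h10 := h2 k
      have h11 : 2 * t - δ k ≤ N ((2 : 𝕜) • v + u k) := by linarith
      have h12 : 2 - δ k / t ≤ t⁻¹ * N ((2 : 𝕜) • v + u k) := by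
        have : 2 - δ k / t = t⁻¹ * (2 * t - δ k) := by field_simp
        rw [this]
        exact mul_le_mul_of_nonneg_left h11 (inv_nonneg.2 ht.le)
      have := her k
      linarith
    have hlim : Tendsto (fun k => 2 - 2 * (δ k / t)) atTop (𝓝 2) := by
      have := (hδ.div_const t).const_mul 2
      have := this.const_sub 2
      simpa using this
    exact tendsto_of_tendsto_of_tendsto_of_le_of_le hlim tendsto_const_nhds hlo hup
  have hlim := hL X Xs hX hXs hsum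
  have hlo : ∀ k, a / t - δ k / t ≤ N (Xs k - X) := by
    intro k
    have h3 : ((t⁻¹ : ℝ) : 𝕜) • u k = (Xs k - X) - er k := by
      rw [hdec]
      show _ = _ + _ - ((t⁻¹ : ℝ) : 𝕜) • v - _
      rw [smul_add]
      abel
    have h4 := map_sub_le_add N (Xs k - X) (er k)
    rw [← h3, hsc _ _ (inv_nonneg.2 ht.le)] at h4
    have h5 : a / t ≤ t⁻¹ * N (u k) := by
      rw [div_eq_inv_mul]
      exact mul_le_mul_of_nonneg_left (hu k) (inv_nonneg.2 ht.le)
    have := her k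
    linarith
  have hlim2 : Tendsto (fun k => a / t - δ k / t) atTop (𝓝 (a / t)) := by
    have := (hδ.div_const t).const_sub (a / t)
    simpa using this
  have h3 := le_of_tendsto_of_tendsto' hlim2 hlim hlo
  have : 0 < a / t := div_pos ha ht
  linarith

/-- A Banach space which contains `ℓ^∞` isometrically has no equivalent LUR norm. -/
lemma not_LUR {E : Type} [NormedAddCommGroup E] [NormedSpace 𝕜 E] (J : Linf 𝕜 →ₗᵢ[𝕜] E)
    (N : Seminorm 𝕜 E) (hN : IsEquivalentNorm N) : ¬ IsLUR N := by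
  classical
  obtain ⟨a, b, ha, hb, hab⟩ := hN
  let p : Seminorm 𝕜 (Linf 𝕜) := N.comp J.toLinearMap
  have hp : ∀ x, p x = N (J x) := fun x => rfl
  have hpa : ∀ x, a * ‖x‖ ≤ p x := fun x => by
    rw [hp]
    have := (hab (J x)).1
    rwa [J.norm_map] at this
  have hpb : ∀ x, p x ≤ b * ‖x‖ := fun x => by
    rw [hp]
    have := (hab (J x)).2
    rwa [J.norm_map] at this
  let δ : ℕ → ℝ := fun k => a / 4 * (1 / ((k : ℝ) + 1))
  have hδpos : ∀ k, 0 < δ k := fun k => by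
    show 0 < a / 4 * (1 / ((k : ℝ) + 1))
    positivity
  have hδle : ∀ k, δ k ≤ a / 4 := fun k => by
    show a / 4 * (1 / ((k : ℝ) + 1)) ≤ a / 4
    have : 1 / ((k : ℝ) + 1) ≤ 1 := by
      rw [div_le_one (by positivity)]
      have : (0 : ℝ) ≤ k := Nat.cast_nonneg k
      linarith
    nlinarith
  have hδlim : Tendsto δ atTop (𝓝 0) := by
    have := (tendsto_one_div_add_atTop_nhds_zero_nat (𝕜 := ℝ)).const_mul (a / 4)
    simpa [δ] using this
  obtain ⟨x, m, hx, hm⟩ := exists_flat p hpa hpb δ hδpos (by have := hδle 0; linarith)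
  refine not_LUR_of_flat N ha (t := p x) (by linarith) (J x)
    (fun k => J (lp.single ∞ (m k) (1 : 𝕜))) δ hδlim (fun k => ?_) rfl (fun k => ?_)
    (fun k => ?_) (fun k => ?_)
  · have := hδle k
    linarith
  · have := hpa (lp.single ∞ (m k) (1 : 𝕜))
    rw [lp.norm_single (by simp), norm_one, mul_one] at this
    exact this
  · rw [← map_add]
    exact (hm k).1
  · rw [← map_sub]
    exact (hm k).2

end LUR

/-- **A negative answer to the question of John and Zizler.** Over the real and over the complex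
numbers there is a Banach space which has an extended M-basis and on which no equivalent norm is
locally uniformly convex. -/
theorem result (𝕜 : Type) [RCLike 𝕜] :
    ∃ (E : Type) (_ : NormedAddCommGroup E) (_ : NormedSpace 𝕜 E) (_ : CompleteSpace E),
      (∃ (I : Type) (x : I → E) (f : I → StrongDual 𝕜 E), IsExtendedMBasis 𝕜 x f) ∧
      ¬ ∃ N : Seminorm 𝕜 E, IsEquivalentNorm N ∧ IsLUR N := by
  refine ⟨Z 𝕜, inferInstance, inferInstance, inferInstance, ⟨_, bx, bf, isExtendedMBasis⟩, ?_⟩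
  rintro ⟨N, hN, hL⟩
  let J : Linf 𝕜 →ₗᵢ[𝕜] Z 𝕜 :=
    { toLinearMap := LinearMap.inl 𝕜 (Linf 𝕜) (Y 𝕜)
      norm_map' := fun x => by
        show ‖((x, 0) : Linf 𝕜 × Y 𝕜)‖ = ‖x‖
        rw [Prod.norm_mk, norm_zero, max_eq_left (norm_nonneg _)] }
  exact not_LUR J N hN hL

end Pool.Agent.Results.MP_ea77cd_an.MBasisWithoutLUR
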